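import Pool.Agent.H91.AV.Targets

/-!
# KAP: the tail of the junta decomposition
-/

namespace Pool.Agent.H35.AV

open Finset Pool.Agent.H91.AV
open Pool.Agent.H96.KX (psz fac jun PDz prs)

theorem inner_pow_card {ι : Type} (s : Finset ι) (f : ι → ℝ) (hf : ∀ i, 0 ≤ f i) (m : ℕ) :
    (∑ i ∈ s, f i) ^ (m + 1) ≤ (s.card : ℝ) ^ m * ∑ i ∈ s, f i ^ (m + 1) := by
  rcases s.eq_empty_or_nonempty with h | h
  · subst h
    simp
  · have h1 := pow_sum_div_card_le_sum_pow (s := s) (f := f) (fun i _ => hf i) m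
    have h2 : (0 : ℝ) < (s.card : ℝ) ^ m := by
      have : 0 < s.card := h.card_pos
      positivity
    rw [div_le_iff₀ h2] at h1
    linarith

theorem pf_KAP (hJ : S_JUN) : S_KAP := by
  classical
  intro H U Z _ _ _ _ _ h r c hr hc hM hB N t g hg
  obtain ⟨w, hw0, hwr, hwm⟩ := hJ H U Z h r c hr hM N g hg
  refine ⟨w, hw0, hwr, ?_⟩
  set Q : ℝ := (Fintype.card Z : ℝ) with hQ
  set u : ℝ := (Fintype.card U : ℝ) ^ r with hu
  set B : ℝ := Q * (2 ^ (2 * r) * c) with hBd
  have hQ1 : 1 ≤ Q := by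
    rw [hQ]
    exact_mod_cast Fintype.card_pos
  have hB0 : 0 < B := by positivity
  have hu0 : 0 < u := lt_of_lt_of_le hB0 hB
  set lam : ℝ := u / B with hlam
  have hlam1 : 1 ≤ lam := by
    rw [hlam, le_div_iff₀ hB0]
    linarith
  have hlamB : lam * B = u := by
    rw [hlam]
    field_simp
  have hm := hwm lam (by linarith) hc.le
  rw [hlamB] at hm
  obtain ⟨m, hm2⟩ : ∃ m, 2 * r = m + 1 := ⟨2 * r - 1, by omega⟩
  have hcard : ((univ.filter (fun τ : Fin N → Option Z => t ≤ psz τ)).card : ℝ) ≤ (Q + 1) ^ N := by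
    have h1 : (univ.filter (fun τ : Fin N → Option Z => t ≤ psz τ)).card ≤
        Fintype.card (Fin N → Option Z) := card_le_univ _
    have h2 : Fintype.card (Fin N → Option Z) = (Fintype.card Z + 1) ^ N := by
      rw [Fintype.card_fun, Fintype.card_option, Fintype.card_fin]
    rw [h2] at h1
    rw [hQ]
    exact_mod_cast h1
  have hQN : 1 ≤ (Q + 1) ^ N := one_le_pow₀ (by linarith)
  have key : ∀ a, (∑ τ with t ≤ psz τ, w a τ) ^ (2 * r) ≤
      (Q + 1) ^ (2 * r * N) * ((B / u) ^ t * ∑ τ, lam ^ psz τ * w a τ ^ (2 * r)) := by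
    intro a
    have h1 : (∑ τ with t ≤ psz τ, w a τ) ^ (2 * r) ≤
        ((univ.filter (fun τ : Fin N → Option Z => t ≤ psz τ)).card : ℝ) ^ m *
          ∑ τ with t ≤ psz τ, w a τ ^ (2 * r) := by
      rw [hm2]
      have h5 := inner_pow_card (univ.filter (fun τ : Fin N → Option Z => t ≤ psz τ))
        (w a) (hw0 a) m
      exact h5
    have h2 : ((univ.filter (fun τ : Fin N → Option Z => t ≤ psz τ)).card : ℝ) ^ m ≤
        (Q + 1) ^ (2 * r * N) := by
      calc ((univ.filter (fun τ : Fin N → Option Z => t ≤ psz τ)).card : ℝ) ^ m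
          ≤ ((Q + 1) ^ N) ^ m := pow_le_pow_left₀ (by positivity) hcard m
        _ ≤ ((Q + 1) ^ N) ^ (2 * r) := pow_le_pow_right₀ hQN (by omega)
        _ = (Q + 1) ^ (2 * r * N) := by rw [← pow_mul, mul_comm N]
    have h3 : ∑ τ with t ≤ psz τ, w a τ ^ (2 * r) ≤
        (B / u) ^ t * ∑ τ, lam ^ psz τ * w a τ ^ (2 * r) := by
      rw [mul_sum]
      calc ∑ τ with t ≤ psz τ, w a τ ^ (2 * r)
          ≤ ∑ τ with t ≤ psz τ, (B / u) ^ t * (lam ^ psz τ * w a τ ^ (2 * r)) := by
            apply sum_le_sum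
            intro τ hτ
            have hτ' : t ≤ psz τ := by simpa using hτ
            have hw : 0 ≤ w a τ ^ (2 * r) := pow_nonneg (hw0 a τ) _
            have h4 : 1 ≤ (B / u) ^ t * lam ^ psz τ := by
              have h5 : (B / u) ^ t * lam ^ t = 1 := by
                rw [← mul_pow, hlam]
                rw [div_mul_div_cancel₀ hu0.ne', div_self hB0.ne', one_pow]
              rw [← h5]
              apply mul_le_mul_of_nonneg_left
              · exact pow_le_pow_right₀ hlam1 hτ'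
              · positivity
            nlinarith [mul_le_mul_of_nonneg_right h4 hw]
        _ ≤ ∑ τ, (B / u) ^ t * (lam ^ psz τ * w a τ ^ (2 * r)) := by
            apply sum_le_sum_of_subset_of_nonneg (filter_subset _ _)
            intro τ _ _
            have hw : 0 ≤ w a τ ^ (2 * r) := pow_nonneg (hw0 a τ) _
            positivity
    calc (∑ τ with t ≤ psz τ, w a τ) ^ (2 * r)
        ≤ ((univ.filter (fun τ : Fin N → Option Z => t ≤ psz τ)).card : ℝ) ^ m *
          ∑ τ with t ≤ psz τ, w a τ ^ (2 * r) := h1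
      _ ≤ (Q + 1) ^ (2 * r * N) * ∑ τ with t ≤ psz τ, w a τ ^ (2 * r) := by
          apply mul_le_mul_of_nonneg_right h2
          exact sum_nonneg (fun τ _ => pow_nonneg (hw0 a τ) _)
      _ ≤ _ := by
          apply mul_le_mul_of_nonneg_left h3
          positivity
  calc ∑ a, (∑ τ with t ≤ psz τ, w a τ) ^ (2 * r)
      ≤ ∑ a, (Q + 1) ^ (2 * r * N) * ((B / u) ^ t * ∑ τ, lam ^ psz τ * w a τ ^ (2 * r)) :=
        sum_le_sum (fun a _ => key a)
    _ = (Q + 1) ^ (2 * r * N) * ((B / u) ^ t * ∑ a, ∑ τ, lam ^ psz τ * w a τ ^ (2 * r)) := by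
        rw [← mul_sum, ← mul_sum]
    _ ≤ (Q + 1) ^ (2 * r * N) * ((B / u) ^ t *
        ((u + u) ^ N * (Fintype.card H : ℝ) ^ N * (∑ x, g x ^ 2) ^ r)) := by
        apply mul_le_mul_of_nonneg_left _ (by positivity)
        apply mul_le_mul_of_nonneg_left hm (by positivity)
    _ = kap H U Z r c N t * (∑ x, g x ^ 2) ^ r := by
        unfold kap
        rw [← hQ, ← hu, ← hBd, mul_pow (2 * u)]
        rw [show u + u = 2 * u by ring]
        ring

end Pool.Agent.H35.AV
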